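import Pool.Agent.Work.MP_2e5000_an.Main

set_option autoImplicit false

open MeasureTheory Filter Topology

namespace Pool.Agent.Results.MP_2e5000_an.WeaklyMixingDrivenToZero

open Pool.Agent.Work.MP_2e5000_an

/-- There is a shift-invariant, weakly mixing Borel probability measure `μ` on `{0,1}^ℤ` without
atoms (in particular `μ` is not the point mass at the zero configuration, nor at the all-ones
configuration) such that `F^n(μ)` converges weak-* to the point mass at the zero configuration,
where `F` is the XOR automaton `F(x)_i = x_i + x_{i+1} mod 2`. -/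
theorem result : ∃ μ : Measure X, IsProbabilityMeasure μ ∧ μ.map shift = μ ∧ WeaklyMixing μ ∧
    (∀ x, μ {x} = 0) ∧
    ∀ f : X → ℝ, Continuous f →
      Tendsto (fun n : ℕ => ∫ x, f x ∂(μ.map (xorCA^[n]))) atTop (𝓝 (f (fun _ => false))) :=
  main

end Pool.Agent.Results.MP_2e5000_an.WeaklyMixingDrivenToZero
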